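import Pool.Agent.H71.O2.K1
import Pool.Agent.H38.O1.N3
import Pool.Agent.H25.NM.End
import Pool.Agent.H40.O2.Fin

set_option autoImplicit false

/-!
The end of case O1 (helper12's end game): if `th(a, b)` fixes `b` for all `a, b`, then a finite simple
automorphic loop is associative.
-/

namespace ALoop

open Equiv

variable {Q : Type*} {G : Subgroup (Perm Q)} {L : Q → Perm Q} {J : Perm Q} {e : Q}

/-- `al(x, y)` -/
def Al (L : Q → Perm Q) (x y : Q) : Perm Q := (L (L x y))⁻¹ * L x * L y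

namespace AL0

theorem eg_cL (h : AL0 G L J e) {g : Perm Q} (hg : g ∈ G) (he : g e = e) {x : Q} (hx : g x = x) :
    Commute g (L x) := h.comL hg he hx

theorem eg_cR (h : AL0 G L J e) {g : Perm Q} (hg : g ∈ G) (he : g e = e) {x : Q} (hx : g x = x) :
    Commute g (Rt L J x) := h.comR hg he hx

theorem eg_cT (h : AL0 G L J e) {g : Perm Q} (hg : g ∈ G) (he : g e = e) {x : Q} (hx : g x = x) :
    Commute g (Tx L J x) := (h.eg_cL hg he hx).mul_right (h.eg_cR hg he hx).inv_right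

theorem eg_aut (h : AL0 G L J e) {g : Perm Q} (hg : g ∈ G) (he : g e = e) (x y : Q) :
    g (L x y) = L (g x) (g y) := by
  have h1 := h.equi g hg he x
  have h2 : g * L x = L (g x) * g := by rw [← h1]; group
  have := congrArg (fun p : Perm Q => p y) h2
  simpa using this

theorem eg_equiR (h : AL0 G L J e) {g : Perm Q} (hg : g ∈ G) (he : g e = e) (x : Q) :
    g * Rt L J x * g⁻¹ = Rt L J (g x) := by
  have h0 : g * J = J * g := h.comJ g hg he
  have h0' : J * g⁻¹ = g⁻¹ * J := (Commute.inv_right (show Commute J g from h0.symm)).eq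
  have h1 := h.equi g hg he (J x)
  have h2 : g (J x) = J (g x) := by
    have := congrArg (fun p : Perm Q => p x) h0
    simpa using this
  unfold Rt
  rw [← h2, ← h1]
  calc g * (J * L (J x) * J) * g⁻¹ = (g * J) * L (J x) * (J * g⁻¹) := by group
    _ = _ := by rw [h0, h0']; group

theorem eg_equiT (h : AL0 G L J e) {g : Perm Q} (hg : g ∈ G) (he : g e = e) (x : Q) :
    g * Tx L J x * g⁻¹ = Tx L J (g x) := by
  unfold Tx
  rw [← h.equi g hg he x, ← h.eg_equiR hg he x]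
  group

theorem eg_equiAl (h : AL0 G L J e) {g : Perm Q} (hg : g ∈ G) (he : g e = e) (x y : Q) :
    g * Al L x y * g⁻¹ = Al L (g x) (g y) := by
  unfold Al
  rw [← h.eg_aut hg he, ← h.equi g hg he x, ← h.equi g hg he y, ← h.equi g hg he (L x y)]
  group

theorem eg_equiTh (h : AL0 G L J e) {g : Perm Q} (hg : g ∈ G) (he : g e = e) (x y : Q) :
    g * Th L J x y * g⁻¹ = Th L J (g x) (g y) := by
  unfold Th
  rw [← h.equi g hg he x, ← h.eg_equiR hg he y]
  group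

theorem eg_LL (x y : Q) : L x * L y = L (L x y) * Al L x y := by unfold Al; group

theorem Al_mem (h : AL0 G L J e) (x y : Q) : Al L x y ∈ G :=
  G.mul_mem (G.mul_mem (G.inv_mem (h.memL _)) (h.memL _)) (h.memL _)

theorem Al_e (h : AL0 G L J e) (x y : Q) : Al L x y e = e := by
  unfold Al
  rw [Perm.mul_apply, Perm.mul_apply, h.Le, Perm.inv_eq_iff_eq, h.Le]

theorem eg_flx (h : AL0 G L J e) (x y : Q) : L x (L y x) = L (L x y) x := by
  have h1 := congrArg (fun p : Perm Q => p y) (h.flex x)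
  simp only [Perm.mul_apply] at h1
  rw [h.Rt_app, h.Rt_app] at h1
  exact h1

theorem Al_x (h : AL0 G L J e) (x y : Q) : Al L x y x = x := by
  unfold Al
  rw [Perm.mul_apply, Perm.mul_apply, Perm.inv_eq_iff_eq, h.eg_flx]

theorem Th_fix (h : AL0 G L J e) (a b s : Q) :
    Th L J a b s = s ↔ L a (L s b) = L (L a s) b := by
  unfold Th
  simp only [Perm.mul_apply]
  rw [Perm.inv_eq_iff_eq, Perm.inv_eq_iff_eq, h.Rt_app, h.Rt_app]

theorem Al_y (h : AL0 G L J e) (k7 : ∀ a b, Th L J a b b = b) (x y : Q) : Al L x y y = y := by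
  unfold Al
  rw [Perm.mul_apply, Perm.mul_apply, Perm.inv_eq_iff_eq]
  exact (h.Th_fix x y y).1 (k7 x y)

theorem Al_xy (h : AL0 G L J e) (k7 : ∀ a b, Th L J a b b = b) (x y : Q) :
    Al L x y (L x y) = L x y := by
  rw [h.eg_aut (h.Al_mem x y) (h.Al_e x y), h.Al_x, h.Al_y k7]

theorem k7a (h : AL0 G L J e) (k7 : ∀ a b, Th L J a b b = b) (a b : Q) : Th L J a b a = a := by
  have h1 := k7 (J b) (J a)
  rw [h.Th_inv, Perm.inv_eq_iff_eq] at h1
  have h2 := h.fixJ (h.Th_mem a b) (h.Th_e a b) h1.symm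
  rwa [h.JJ] at h2

theorem ThJ (h : AL0 G L J e) (k7 : ∀ a b, Th L J a b b = b) (a b : Q) :
    Th L J a (J b) = (Th L J a b)⁻¹ := by
  have h1 := h.K1 a b
  have h2 : Th L J a b * Tx L J b = Tx L J b * Th L J a b :=
    (h.eg_cT (h.Th_mem a b) (h.Th_e a b) (k7 a b)).eq
  rw [h2] at h1
  have h3 := mul_left_cancel h1
  rw [← h3, inv_inv]

theorem Th_symm (h : AL0 G L J e) (k7 : ∀ a b, Th L J a b b = b) (a b : Q) :
    Th L J b a = (Th L J a b)⁻¹ := by
  have h1 := h.K2 a b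
  have h2 : Th L J a b * Tx L J b = Tx L J b * Th L J a b :=
    (h.eg_cT (h.Th_mem a b) (h.Th_e a b) (k7 a b)).eq
  rw [h2] at h1
  have h3 := mul_left_cancel h1
  rw [h.ThJ k7] at h3
  rw [← h3, inv_inv]

theorem eg_RL (a b : Q) : Rt L J b * L a = L a * Rt L J b * (Th L J a b)⁻¹ := by
  unfold Th; group

theorem RRJ1 (h : AL0 G L J e) (k7 : ∀ a b, Th L J a b b = b) (b : Q) :
    Rt L J b * Rt L J (J b) = 1 := by
  have hc : ∀ a, (Rt L J b * Rt L J (J b)) * L a = L a * (Rt L J b * Rt L J (J b)) := by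
    intro a
    have h1 : Commute (Th L J a b) (Rt L J (J b)) :=
      h.eg_cR (h.Th_mem a b) (h.Th_e a b) (h.fixJ (h.Th_mem a b) (h.Th_e a b) (k7 a b))
    calc (Rt L J b * Rt L J (J b)) * L a = Rt L J b * (Rt L J (J b) * L a) := by group
      _ = Rt L J b * (L a * Rt L J (J b) * (Th L J a (J b))⁻¹) := by rw [eg_RL]
      _ = (Rt L J b * L a) * (Rt L J (J b) * Th L J a b) := by rw [h.ThJ k7, inv_inv]; group
      _ = (L a * Rt L J b * (Th L J a b)⁻¹) * (Th L J a b * Rt L J (J b)) := by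
          rw [eg_RL, h1.eq]
      _ = _ := by group
  ext x
  have h1 : (Rt L J b * Rt L J (J b)) e = e := by
    rw [Perm.mul_apply, h.Rt_e, h.Rt_app, h.JL]
  have h2 := congrArg (fun p : Perm Q => p e) (hc x)
  rw [Perm.mul_apply, Perm.mul_apply (L x), h1, h.Le] at h2
  rw [h2, Perm.one_apply]

theorem RJinv (h : AL0 G L J e) (k7 : ∀ a b, Th L J a b b = b) (b : Q) :
    Rt L J (J b) = (Rt L J b)⁻¹ := eq_inv_of_mul_eq_one_right (h.RRJ1 k7 b)

theorem LJinv (h : AL0 G L J e) (k7 : ∀ a b, Th L J a b b = b) (b : Q) :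
    L (J b) = (L b)⁻¹ := by
  have h1 : L b = J * Rt L J (J b) * J := by
    have := h.JRJ (J b)
    rw [h.JJ] at this
    exact this.symm
  rw [h1, ← h.JRJ b, h.RJinv k7]
  simp only [mul_inv_rev, inv_inv, h.Jinv]
  group

theorem Al_inv (h : AL0 G L J e) (k7 : ∀ a b, Th L J a b b = b) (x y : Q) :
    Al L (J y) (J x) = (Al L x y)⁻¹ := by
  have h1 : Commute (Al L x y) (L (L x y)) := h.eg_cL (h.Al_mem x y) (h.Al_e x y) (h.Al_xy k7 x y)
  have h2 : Al L (J y) (J x) = L (L x y) * (L x * L y)⁻¹ := by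
    unfold Al
    rw [← h.aaip, h.LJinv k7, h.LJinv k7, h.LJinv k7]
    group
  rw [h2, eg_LL, mul_inv_rev, ← mul_assoc, ← (h1.inv_left).eq]
  group

theorem eg_RR (h : AL0 G L J e) (k7 : ∀ a b, Th L J a b b = b) (y z : Q) :
    Rt L J z * Rt L J y = Rt L J (L y z) * (Al L y z)⁻¹ := by
  have h1 : L (J z) * L (J y) = L (J (L y z)) * (Al L y z)⁻¹ := by
    rw [eg_LL, ← h.aaip, h.Al_inv k7]
  have h2 : J * (Al L y z)⁻¹ * J = (Al L y z)⁻¹ := by
    have h3 := h.comJ _ (G.inv_mem (h.Al_mem y z)) (by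
      rw [Perm.inv_eq_iff_eq, h.Al_e])
    rw [← h3, mul_assoc, h.JJ1, mul_one]
  calc Rt L J z * Rt L J y = J * L (J z) * (J * J) * L (J y) * J := by unfold Rt; group
    _ = J * (L (J z) * L (J y)) * J := by rw [h.JJ1]; group
    _ = J * L (J (L y z)) * 1 * (Al L y z)⁻¹ * J := by rw [h1]; group
    _ = J * L (J (L y z)) * (J * J) * (Al L y z)⁻¹ * J := by rw [h.JJ1]
    _ = (J * L (J (L y z)) * J) * (J * (Al L y z)⁻¹ * J) := by group
    _ = _ := by rw [h2]; rfl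

theorem eg_a1 (h : AL0 G L J e) (k7 : ∀ a b, Th L J a b b = b) (x y z : Q) :
    L x (L y z) = Al L x y (L (L x y) z) := by
  have h1 : Commute (Al L x y) (L (L x y)) := h.eg_cL (h.Al_mem x y) (h.Al_e x y) (h.Al_xy k7 x y)
  have h2 := congrArg (fun p : Perm Q => p z) (eg_LL (L := L) x y)
  rw [← h1.eq] at h2
  exact h2

theorem eg_a2 (h : AL0 G L J e) (k7 : ∀ a b, Th L J a b b = b) (x y z : Q) :
    L x (L y z) = Th L J x z (L (L x y) z) := by
  have h1 : Commute (Th L J x z) (Rt L J z) := h.eg_cR (h.Th_mem x z) (h.Th_e x z) (k7 x z)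
  have h2 : Commute (Th L J x z) (L x) := h.eg_cL (h.Th_mem x z) (h.Th_e x z) (h.k7a k7 x z)
  have h3 : L x * Rt L J z = Th L J x z * (Rt L J z * L x) := by
    rw [← mul_assoc, h1.eq, mul_assoc, h2.eq]
    unfold Th; group
  have h4 := congrArg (fun p : Perm Q => p y) h3
  simp only [Perm.mul_apply] at h4
  rw [h.Rt_app, h.Rt_app] at h4
  exact h4

theorem eg_a3 (h : AL0 G L J e) (k7 : ∀ a b, Th L J a b b = b) (x y z : Q) :
    L x (L y z) = Al L y z (L (L x y) z) := by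
  have h1 : Commute (Al L y z) (Rt L J (L y z)) :=
    h.eg_cR (h.Al_mem y z) (h.Al_e y z) (h.Al_xy k7 y z)
  have h2 := congrArg (fun p : Perm Q => p x) (h.eg_RR k7 y z)
  rw [← (h1.inv_left).eq] at h2
  simp only [Perm.mul_apply] at h2
  rw [h.Rt_app, h.Rt_app, h.Rt_app] at h2
  rw [h2, apply_inv']

theorem eg_Tl (h : AL0 G L J e) (x y : Q) : L (Tx L J x y) x = L x y := by
  rw [← h.Rt_app x (Tx L J x y), ← Perm.mul_apply, ← h.Tx_R]
  unfold Tx
  simp

theorem eg_Tr (h : AL0 G L J e) (x y : Q) : L y ((Tx L J y)⁻¹ x) = L x y := by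
  rw [← h.Rt_app y x]
  have h1 : L y * (Tx L J y)⁻¹ = Rt L J y := by
    rw [mul_inv_eq_iff_eq_mul, ← h.Tx_R]
    unfold Tx
    group
  rw [← h1, Perm.mul_apply]

theorem Ti_mem (h : AL0 G L J e) (x : Q) : (Tx L J x)⁻¹ ∈ G := G.inv_mem (h.Tx_mem x)

theorem Ti_e (h : AL0 G L J e) (x : Q) : (Tx L J x)⁻¹ e = e := by
  rw [Perm.inv_eq_iff_eq, h.Tx_e]

theorem Ti_x (h : AL0 G L J e) (x : Q) : (Tx L J x)⁻¹ x = x := by
  rw [Perm.inv_eq_iff_eq, h.Tx_x]

/-- (4) `al(z, x) = al(x, z)⁻¹` -/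
theorem Al_symm (h : AL0 G L J e) (k7 : ∀ a b, Th L J a b b = b) (x z : Q) :
    Al L x z = (Al L z x)⁻¹ := by
  ext w
  set y := (L x)⁻¹ ((Rt L J z)⁻¹ w) with hy
  have hw : L (L x y) z = w := by
    rw [hy, apply_inv', ← h.Rt_app z, apply_inv']
  -- (4b)
  have e1 : Al L (Tx L J x y) x = Al L y x := by
    have h1 := h.eg_equiAl (h.Tx_mem x) (h.Tx_e x) y x
    rw [h.Tx_x] at h1
    have h2 : Commute (Al L y x) (Tx L J x) := h.eg_cT (h.Al_mem y x) (h.Al_e y x) (h.Al_y k7 y x)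
    rw [← h1, ← h2.eq]; group
  have b1 : Al L y x w = Al L x z w := by
    have h1 := h.eg_a1 k7 (Tx L J x y) x z
    have h2 := h.eg_a3 k7 (Tx L J x y) x z
    rw [h.eg_Tl, hw] at h1 h2
    rw [← e1, ← h1, ← h2]
  -- (4a)
  have e2 : Al L y ((Tx L J y)⁻¹ x) = Al L y x := by
    have h1 := h.eg_equiAl (h.Ti_mem y) (h.Ti_e y) y x
    rw [h.Ti_x] at h1
    have h2 : Commute (Al L y x) (Tx L J y)⁻¹ :=
      (h.eg_cT (h.Al_mem y x) (h.Al_e y x) (h.Al_x y x)).inv_right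
    rw [← h1, ← h2.eq]; group
  have b2 : Al L y x w = Th L J y z w := by
    have h1 := h.eg_a1 k7 y ((Tx L J y)⁻¹ x) z
    have h2 := h.eg_a2 k7 y ((Tx L J y)⁻¹ x) z
    rw [h.eg_Tr, hw] at h1 h2
    rw [← e2, ← h1, ← h2]
  -- (4c)
  have e3 : Al L z ((Tx L J z)⁻¹ x) = Al L z x := by
    have h1 := h.eg_equiAl (h.Ti_mem z) (h.Ti_e z) z x
    rw [h.Ti_x] at h1
    have h2 : Commute (Al L z x) (Tx L J z)⁻¹ :=
      (h.eg_cT (h.Al_mem z x) (h.Al_e z x) (h.Al_x z x)).inv_right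
    rw [← h1, ← h2.eq]; group
  have e4 : Th L J z ((Tx L J z)⁻¹ y) = Th L J z y := by
    have h1 := h.eg_equiTh (h.Ti_mem z) (h.Ti_e z) z y
    rw [h.Ti_x] at h1
    have h2 : Commute (Th L J z y) (Tx L J z)⁻¹ :=
      (h.eg_cT (h.Th_mem z y) (h.Th_e z y) (h.k7a k7 z y)).inv_right
    rw [← h1, ← h2.eq]; group
  have b3 : (Al L z x)⁻¹ w = (Th L J z y)⁻¹ w := by
    have h1 := h.eg_a1 k7 z ((Tx L J z)⁻¹ x) ((Tx L J z)⁻¹ y)
    have h2 := h.eg_a2 k7 z ((Tx L J z)⁻¹ x) ((Tx L J z)⁻¹ y)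
    have h3 : L z (L ((Tx L J z)⁻¹ x) ((Tx L J z)⁻¹ y)) = w := by
      rw [← h.eg_aut (h.Ti_mem z) (h.Ti_e z), h.eg_Tr, hw]
    rw [h3] at h1 h2
    rw [e3] at h1
    rw [e4] at h2
    exact (Perm.inv_eq_iff_eq.2 h1).trans (Perm.inv_eq_iff_eq.2 h2).symm
  rw [← b1, b2, b3, h.Th_symm k7 y z, inv_inv]

/-- (5) `th(x, q) = al(x, q)²` -/
theorem Th_Al (h : AL0 G L J e) (k7 : ∀ a b, Th L J a b b = b) (x q : Q) :
    Th L J x q = Al L x q * Al L x q := by
  have cA1 : Commute (Al L x q) (Tx L J q) := h.eg_cT (h.Al_mem x q) (h.Al_e x q) (h.Al_y k7 x q)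
  have cTL : Commute (Tx L J q) (L q) := h.Tx_L q
  have cthL : Commute (Th L J x q) (L q) := h.eg_cL (h.Th_mem x q) (h.Th_e x q) (k7 x q)
  have h1 : L (L q x) = Tx L J q * L (L x q) * (Tx L J q)⁻¹ := by
    rw [h.equi _ (h.Tx_mem q) (h.Tx_e q), h.eg_aut (h.Tx_mem q) (h.Tx_e q), h.Tx_x, h.eg_Tl]
  have h2 : Tx L J q * L x * (Tx L J q)⁻¹ = L q * L x * Th L J x q * (L q)⁻¹ := by
    have h3 : Tx L J q = L q * (Rt L J q)⁻¹ := rfl
    rw [h3]
    unfold Th
    group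
  have h4 : L x * L q = L (L x q) * Al L x q := eg_LL x q
  have h5 : L q * L x = L (L q x) * Al L q x := eg_LL q x
  have h6 : L (L x q) = L x * L q * (Al L x q)⁻¹ := by rw [h4]; group
  have h7 : L q * L x = L q * L x * (Th L J x q * (Al L x q)⁻¹ * Al L q x) := by
    calc L q * L x = L (L q x) * Al L q x := h5
      _ = Tx L J q * (L x * L q * (Al L x q)⁻¹) * (Tx L J q)⁻¹ * Al L q x := by rw [h1, h6]
      _ = Tx L J q * L x * (L q * ((Al L x q)⁻¹ * (Tx L J q)⁻¹)) * Al L q x := by group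
      _ = Tx L J q * L x * (L q * (Tx L J q)⁻¹) * (Al L x q)⁻¹ * Al L q x := by
          rw [(cA1.inv_left.inv_right).eq]; group
      _ = (Tx L J q * L x * (Tx L J q)⁻¹) * L q * (Al L x q)⁻¹ * Al L q x := by
          rw [(cTL.inv_left).symm.eq]; group
      _ = L q * L x * (Th L J x q * ((L q)⁻¹ * L q)) * (Al L x q)⁻¹ * Al L q x := by
          rw [h2]; group
      _ = _ := by group
  have h8 : Th L J x q * (Al L x q)⁻¹ * Al L q x = 1 := by
    have := mul_left_cancel (a := L q * L x) (b := 1)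
      (c := Th L J x q * (Al L x q)⁻¹ * Al L q x) (by rw [mul_one]; exact h7)
    exact this.symm
  rw [h.Al_symm k7 q x] at h8
  have h9 : Th L J x q * ((Al L x q)⁻¹ * (Al L x q)⁻¹) = 1 := by rw [← mul_assoc]; exact h8
  rw [eq_inv_of_mul_eq_one_left h9, mul_inv_rev, inv_inv]

/-- (6) `T_{qx} = T_q T_x` -/
theorem T_mul (h : AL0 G L J e) (k7 : ∀ a b, Th L J a b b = b) (q x : Q) :
    Tx L J (L q x) = Tx L J q * Tx L J x := by
  set A := Al L q x with hA
  have cAL : Commute A (L q) := h.eg_cL (h.Al_mem q x) (h.Al_e q x) (h.Al_x q x)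
  have cAL' : Commute A (L x) := h.eg_cL (h.Al_mem q x) (h.Al_e q x) (h.Al_y k7 q x)
  have h1 : L (L q x) = L q * L x * A⁻¹ := by
    have := eg_LL (L := L) q x
    rw [this, ← hA]; group
  have h2 : Rt L J (L q x) = Rt L J x * Rt L J q * A := by
    have := h.eg_RR k7 q x
    rw [this, ← hA]; group
  have h3 : Th L J x q = A⁻¹ * A⁻¹ := by
    rw [h.Th_symm k7 q x, h.Th_Al k7 q x, mul_inv_rev]
  have cAR : Commute A (Rt L J q) := h.eg_cR (h.Al_mem q x) (h.Al_e q x) (h.Al_x q x)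
  -- `L_x R_q⁻¹ = A² R_q⁻¹ L_x`
  have h4 : L x * (Rt L J q)⁻¹ = A * A * ((Rt L J q)⁻¹ * L x) := by
    have h5 : (Rt L J q)⁻¹ * L x * Rt L J q = L x * (A⁻¹ * A⁻¹) := by
      rw [← h3]; unfold Th; group
    have h6 : (Rt L J q)⁻¹ * L x = (A⁻¹ * A⁻¹) * (L x * (Rt L J q)⁻¹) := by
      have c1 : Commute (A⁻¹ * A⁻¹) (L x) := (cAL'.inv_left).mul_left (cAL'.inv_left)
      calc (Rt L J q)⁻¹ * L x = ((Rt L J q)⁻¹ * L x * Rt L J q) * (Rt L J q)⁻¹ := by group
        _ = ((A⁻¹ * A⁻¹) * L x) * (Rt L J q)⁻¹ := by rw [h5, c1.eq]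
        _ = _ := by group
    rw [h6]; group
  have c2 : Commute (A⁻¹ * A⁻¹) (L q * L x) :=
    ((cAL.inv_left).mul_left (cAL.inv_left)).mul_right ((cAL'.inv_left).mul_left (cAL'.inv_left))
  have c3 : Commute (A * A) (L q) := cAL.mul_left cAL
  calc Tx L J (L q x) = (L q * L x * (A⁻¹ * A⁻¹)) * (Rt L J q)⁻¹ * (Rt L J x)⁻¹ := by
        unfold Tx; rw [h1, h2]; group
    _ = (A⁻¹ * A⁻¹) * L q * (L x * (Rt L J q)⁻¹) * (Rt L J x)⁻¹ := by rw [← c2.eq]; group
    _ = (A⁻¹ * A⁻¹) * (L q * (A * A)) * (Rt L J q)⁻¹ * L x * (Rt L J x)⁻¹ := by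
        rw [h4]; group
    _ = (A⁻¹ * A⁻¹) * ((A * A) * L q) * (Rt L J q)⁻¹ * L x * (Rt L J x)⁻¹ := by rw [← c3.eq]
    _ = _ := by unfold Tx; group

/-- (7) `al(x, y)` commutes with all `T_z` -/
theorem Al_T (h : AL0 G L J e) (k7 : ∀ a b, Th L J a b b = b) (x y z : Q) :
    Commute (Al L x y) (Tx L J z) := by
  have h1 : Al L x y * Tx L J (L (L x y) z) * (Al L x y)⁻¹ = Tx L J (L (L x y) z) := by
    rw [h.eg_equiT (h.Al_mem x y) (h.Al_e x y), ← h.eg_a1 k7, h.T_mul k7, h.T_mul k7, h.T_mul k7,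
      h.T_mul k7, mul_assoc]
  have h2 : Commute (Al L x y) (Tx L J x * Tx L J y * Tx L J z) := by
    rw [h.T_mul k7, h.T_mul k7] at h1
    exact mul_inv_eq_iff_eq_mul.1 h1
  have cx : Commute (Al L x y) (Tx L J x) := h.eg_cT (h.Al_mem x y) (h.Al_e x y) (h.Al_x x y)
  have cy : Commute (Al L x y) (Tx L J y) := h.eg_cT (h.Al_mem x y) (h.Al_e x y) (h.Al_y k7 x y)
  have h3 : Tx L J z = (Tx L J x * Tx L J y)⁻¹ * (Tx L J x * Tx L J y * Tx L J z) := by group
  rw [h3]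
  exact ((cx.mul_right cy).inv_right).mul_right h2

/-- (8) an inner mapping that commutes with all `T_w` fixes all commutators -/
theorem fix_comm (h : AL0 G L J e) {k : Perm Q} (hk : k ∈ G) (hke : k e = e)
    (hc : ∀ w, Commute k (Tx L J w)) (u x : Q) :
    k ((L x)⁻¹ (Tx L J u x)) = (L x)⁻¹ (Tx L J u x) := by
  -- N1 : `s u = T_x⁻¹ u`
  have n1 : ∀ x, L ((L x)⁻¹ (Tx L J u x)) u = (Tx L J x)⁻¹ u := by
    intro x
    have h3 : L x * L ((L x)⁻¹ (Tx L J u x)) = L (L x ((L x)⁻¹ (Tx L J u x))) := h.N3 u x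
    rw [apply_inv'] at h3
    have h4 := congrArg (fun p : Perm Q => p u) h3
    simp only [Perm.mul_apply] at h4
    rw [h.eg_Tl] at h4
    have h5 := h.eg_Tr u x
    rw [← h4] at h5
    exact ((L x).injective h5).symm
  have hT : ∀ w, Tx L J (k w) = Tx L J w := by
    intro w
    rw [← h.eg_equiT hk hke, (hc w).eq]; group
  have h1 : k ((L x)⁻¹ (Tx L J u x)) = (L (k x))⁻¹ (Tx L J u (k x)) := by
    rw [eq_comm, Perm.inv_eq_iff_eq, ← h.eg_aut hk hke, apply_inv', ← Perm.mul_apply,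
      ← Perm.mul_apply, (hc u).eq]
  have h2 := n1 (k x)
  rw [hT x, ← n1 x] at h2
  rw [h1]
  rw [← h.Rt_app u, ← h.Rt_app u] at h2
  exact (Rt L J u).injective h2

end AL0

/-- the end of case O1 -/
theorem AL.end12 [Finite Q] (h : AL G L J e) (k7 : ∀ a b, Th L J a b b = b) : Assoc L := by
  have h0 := h.al0
  rcases h.assoc_or_comm (by
    intro u x t s htu hxs v z
    have ht : t = Tx L J u x := by
      have h1 := h0.eg_Tl u x
      rw [← htu, ← h0.Rt_app u, ← h0.Rt_app u] at h1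
      exact ((Rt L J u).injective h1).symm
    have hs : s = (L x)⁻¹ (Tx L J u x) := by
      rw [eq_comm, Perm.inv_eq_iff_eq, hxs, ht]
    have h2 : Th L J v z s = s := by
      rw [hs]
      refine h0.fix_comm (h0.Th_mem v z) (h0.Th_e v z) ?_ u x
      intro w
      rw [h0.Th_Al k7]
      exact (h0.Al_T k7 v z w).mul_left (h0.Al_T k7 v z w)
    exact ((h0.Th_fix v z s).1 h2).symm) with h1 | h1
  · exact h1
  · refine h.comm_case ?_
    intro x
    ext y
    have h2 := h0.Rt_app x y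
    unfold Rt at h2
    rw [h2, h1]

end ALoop
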